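import Mathlib

/-!
# MP_0a0514_co: the arc-complexity of `U_{3,31}` is less than `3 * 28`

The sources are the 28 edges of the complete graph on 8 vertices, each of them with arcs to its
two ends, and each of the 8 vertices has arcs to the three sinks: `56 + 24 = 80 < 84` arcs.
-/

set_option autoImplicit false

open Set

namespace Pool.Agent.Results.MP_0a0514_co.FewArcs

/-- `p` is a path of the digraph with arc set `A`: a nonempty sequence of distinct vertices, with
an arc from each of them to the next one. -/
def IsPath {V : Type*} (A : Set (V × V)) (p : List V) : Prop :=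
  p ≠ [] ∧ p.Nodup ∧ p.IsChain fun a b => (a, b) ∈ A

/-- `R` is a routing from `X` to `T`. -/
structure IsRouting {V : Type*} (A : Set (V × V)) (X T : Set V) (R : Set (List V)) : Prop where
  path : ∀ p ∈ R, IsPath A p
  disjoint : ∀ p ∈ R, ∀ q ∈ R, p ≠ q → ∀ v, v ∈ p → v ∉ q
  start : ∀ x ∈ X, ∃ p ∈ R, p.head? = some x
  target : ∀ p ∈ R, ∃ t ∈ T, p.getLast? = some t

/-- `(D, T, E)` with `D = (V, A)` is a standard representation of the matroid on the set `α` with
the independent sets `Indep`; the elements of `α` are identified with vertices by the injection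
`e`, and `E` is the range of `e`. -/
structure IsStandardRepresentation {α V : Type*} (Indep : Set α → Prop) (A : Set (V × V))
    (T : Set V) (e : α ↪ V) : Prop where
  subset : T ⊆ Set.range e
  sink : ∀ t ∈ T, ∀ v, (t, v) ∉ A
  source : ∀ x ∈ Set.range e, x ∉ T → ∀ v, (v, x) ∉ A
  indep_iff : ∀ X : Set α, Indep X ↔ ∃ R, IsRouting A (e '' X) T R

/-- The arc-complexity of the gammoid on `α` with the independent sets `Indep`: the least number
of arcs of a standard representation. -/
noncomputable def arcC {α : Type*} (Indep : Set α → Prop) : ℕ :=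
  sInf {k | ∃ (V : Type) (_ : Finite V) (A : Set (V × V)) (T : Set V) (e : α ↪ V),
    A.ncard = k ∧ IsStandardRepresentation Indep A T e}

/-- The independent sets of the uniform matroid `U_{r,n}`. -/
def U (r n : ℕ) (X : Set (Fin n)) : Prop := X.ncard ≤ r

/-- The edges of the complete graph on 8 vertices. -/
abbrev Edge := {s : Finset (Fin 8) // s.card = 2}

/-- The vertices: three sinks, eight middle vertices, and the edges. -/
abbrev V := Fin 3 ⊕ (Fin 8 ⊕ Edge)

/-- The arcs, as a relation. -/
def arc : V → V → Bool
  | .inr (.inl _), .inl _ => true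
  | .inr (.inr s), .inr (.inl i) => decide (i ∈ s.1)
  | _, _ => false

/-- The arcs. -/
def A : Finset (V × V) := Finset.univ.filter fun p => arc p.1 p.2 = true

set_option maxRecDepth 100000 in
theorem card_A : A.card = 80 := by decide +kernel

/-- The sinks. -/
def T : Set V := Set.range Sum.inl

theorem card_ground : Fintype.card (Fin 3 ⊕ Edge) = 31 := by decide +kernel

/-- The ground set. -/
noncomputable def ground : Fin 31 ≃ (Fin 3 ⊕ Edge) :=
  (Fintype.equivFinOfCardEq card_ground).symm

/-- The inclusion of the ground set in the vertex set. -/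
def incl : (Fin 3 ⊕ Edge) ↪ V where
  toFun := Sum.elim Sum.inl fun s => Sum.inr (Sum.inr s)
  inj' := by
    rintro (a | a) (b | b) h
    · simpa using h
    · simp at h
    · simp at h
    · simpa using h

theorem hall {ι : Finset Edge} (hι : ι.card ≤ 3) :
    ∃ f : ι → Fin 8, Function.Injective f ∧ ∀ x : ι, f x ∈ x.1.1 := by
  rw [← Finset.all_card_le_biUnion_card_iff_exists_injective (fun x : ι => x.1.1)]
  intro s
  by_contra hlt
  push Not at hlt
  have h1 : s.card ≤ 3 := (Finset.card_le_univ s).trans (by simpa using hι)
  have h2 : s.card ≤ (s.biUnion fun x => x.1.1).card.choose 2 := by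
    rw [← Finset.card_powersetCard]
    apply Finset.card_le_card_of_injOn (fun x => x.1.1)
    · intro x hx
      rw [Finset.mem_coe, Finset.mem_powersetCard]
      exact ⟨Finset.subset_biUnion_of_mem (fun x : ι => x.1.1) hx, x.1.2⟩
    · intro x _ y _ h
      exact Subtype.ext (Subtype.ext h)
  generalize (s.biUnion fun x => x.1.1).card = u at *
  have h3 : u ≤ 2 := by omega
  interval_cases u
  · rw [show Nat.choose 0 2 = 0 from rfl] at h2; omega
  · rw [show Nat.choose 1 2 = 0 from rfl] at h2; omega
  · rw [show Nat.choose 2 2 = 1 from rfl] at h2; omega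

/-- A routing gives an injection of `X` into `T`. -/
theorem ncard_le_of_routing {V : Type*} {A : Set (V × V)} {X T : Set V} {R : Set (List V)}
    (hT : T.Finite) (h : IsRouting A X T R) : X.ncard ≤ T.ncard := by
  have key : ∀ x : X, ∃ (t : T) (p : List V), p ∈ R ∧ p.head? = some x.1 ∧
      p.getLast? = some t.1 := by
    rintro ⟨x, hx⟩
    obtain ⟨p, hp, hpx⟩ := h.start x hx
    obtain ⟨t, ht, hpt⟩ := h.target p hp
    exact ⟨⟨t, ht⟩, p, hp, hpx, hpt⟩
  choose t p hp hpx hpt using key
  have := hT.to_subtype
  rw [← Nat.card_coe_set_eq, ← Nat.card_coe_set_eq]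
  apply Nat.card_le_card_of_injective t
  intro x y hxy
  have h1 : (t x).1 ∈ p x := List.mem_of_getLast? (hpt x)
  have h2 : (t y).1 ∈ p y := List.mem_of_getLast? (hpt y)
  have h3 : p x = p y := by
    by_contra hne
    exact h.disjoint _ (hp x) _ (hp y) hne _ h1 (by rw [hxy]; exact h2)
  have h4 := hpx x
  rw [h3, hpx y] at h4
  exact (Subtype.ext (Option.some_injective _ h4)).symm

theorem isStandardRepresentation : IsStandardRepresentation (U 3 31) (A : Set (V × V)) T
    (ground.toEmbedding.trans incl) where
  subset := by
    rintro _ ⟨t, rfl⟩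
    exact ⟨ground.symm (.inl t), by simp [incl]⟩
  sink := by
    rintro _ ⟨t, rfl⟩ v h
    simp [A, arc] at h
  source := by
    rintro _ ⟨i, rfl⟩ h v hv
    have : ∀ x : Fin 3 ⊕ Edge, incl x ∉ T → ((v, incl x) : V × V) ∉ A := by
      rintro (t | s) h h'
      · exact h ⟨t, rfl⟩
      · simp [A, incl] at h'
        rcases v with a | a | a <;> simp [arc] at h'
    exact this _ h (by exact_mod_cast hv)
  indep_iff := by
    intro X
    constructor
    · intro hX
      classical
      set T' : Finset (Fin 3) := Finset.univ.filter fun t => ground.symm (.inl t) ∈ X with hT'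
      set S : Finset Edge := Finset.univ.filter fun s => ground.symm (.inr s) ∈ X with hS
      have hg : ground '' X = (T'.disjSum S : Set (Fin 3 ⊕ Edge)) := by
        ext x
        rw [Set.mem_image_equiv]
        cases x <;> simp [hT', hS]
      have hcard : T'.card + S.card ≤ 3 := by
        rw [← Finset.card_disjSum, ← Set.ncard_coe_finset, ← hg,
          Set.ncard_image_of_injective X ground.injective]
        exact hX
      obtain ⟨f, hf, hfm⟩ := hall (ι := S) (by omega)
      obtain ⟨g⟩ : Nonempty (S ↪ {t : Fin 3 // t ∉ T'}) := by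
        apply Function.Embedding.nonempty_of_card_le
        rw [Fintype.card_coe, Fintype.card_subtype_compl, Fintype.card_coe, Fintype.card_fin]
        omega
      refine ⟨{p | (∃ t ∈ T', p = [.inl t]) ∨
        ∃ s : S, p = [.inr (.inr s.1), .inr (.inl (f s)), .inl (g s).1]}, ?_, ?_, ?_, ?_⟩
      · rintro p (⟨t, -, rfl⟩ | ⟨s, rfl⟩)
        · exact ⟨by simp, by simp, by simp⟩
        · refine ⟨by simp, by simp, ?_⟩
          simp [A, arc, hfm s]
      · rintro p (⟨t, ht, rfl⟩ | ⟨s, rfl⟩) q (⟨t', ht', rfl⟩ | ⟨s', rfl⟩) hpq v hv hv'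
        · simp only [List.mem_singleton] at hv hv'
          exact hpq (by rw [← hv, ← hv'])
        · simp only [List.mem_singleton] at hv
          subst hv
          simp only [List.mem_cons, reduceCtorEq, Sum.inl.injEq, false_or, List.not_mem_nil,
            or_false] at hv'
          exact (g s').2 (hv' ▸ ht)
        · simp only [List.mem_singleton] at hv'
          subst hv'
          simp only [List.mem_cons, reduceCtorEq, Sum.inl.injEq, false_or, List.not_mem_nil,
            or_false] at hv
          exact (g s).2 (hv ▸ ht')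
        · have hne : s ≠ s' := by
            rintro rfl
            exact hpq rfl
          simp only [List.mem_cons, List.not_mem_nil, or_false] at hv hv'
          rcases hv with rfl | rfl | rfl
          · simp at hv'
            exact hne hv'
          · simp at hv'
            exact hne (hf hv')
          · simp at hv'
            exact hne (g.injective (Subtype.ext hv'))
      · rintro _ ⟨i, hi, rfl⟩
        have : ∀ x : Fin 3 ⊕ Edge, ground.symm x ∈ X → ∃ p ∈ {p : List V |
            (∃ t ∈ T', p = [.inl t]) ∨
            ∃ s : S, p = [.inr (.inr s.1), .inr (.inl (f s)), .inl (g s).1]},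
            p.head? = some (incl x) := by
          rintro (t | s) hx
          · exact ⟨_, Or.inl ⟨t, by simp [hT', hx], rfl⟩, rfl⟩
          · exact ⟨_, Or.inr ⟨⟨s, by simp [hS, hx]⟩, rfl⟩, rfl⟩
        exact this (ground i) (by simpa using hi)
      · rintro p (⟨t, -, rfl⟩ | ⟨s, rfl⟩)
        · exact ⟨_, ⟨t, rfl⟩, rfl⟩
        · exact ⟨_, ⟨(g s).1, rfl⟩, rfl⟩
    · rintro ⟨R, hR⟩
      have h1 := ncard_le_of_routing (Set.toFinite T) hR
      rw [Set.ncard_image_of_injective X (ground.toEmbedding.trans incl).injective] at h1
      have h2 : T.ncard = 3 := by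
        rw [T, ← Set.image_univ, Set.ncard_image_of_injective _ Sum.inl_injective,
          Set.ncard_univ]
        simp
      rw [h2] at h1
      exact h1

/-- **Theorem.** There are `0 ≤ r ≤ n` with `arcC(U_{r,n}) < r (n - r)`; here `r = 3`, `n = 31`. -/
theorem result : ∃ r n : ℕ, r ≤ n ∧ arcC (U r n) < r * (n - r) := by
  refine ⟨3, 31, by norm_num, ?_⟩
  have h : arcC (U 3 31) ≤ 80 := by
    apply Nat.sInf_le
    exact ⟨V, inferInstance, (A : Set (V × V)), T, ground.toEmbedding.trans incl,
      by rw [Set.ncard_coe_finset, card_A], isStandardRepresentation⟩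
  omega

end Pool.Agent.Results.MP_0a0514_co.FewArcs
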